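import Pool.Agent.Helper35.PQF.St

set_option autoImplicit false

open Filter Topology Matrix Set MeasureTheory
open scoped ENNReal ComplexOrder

namespace Helper8.PM

open Pool.Agent.Helper35.PM

theorem pt_mem {x : ℝ} (θ : ℝ) (hx : x < 0) : pt x θ ∈ Metric.ball (0 : ℂ) 1 := by
  rw [mem_ball_zero_iff, pt, Complex.norm_exp]
  simp [hx]

theorem upt_cont {u : ℂ → ℝ} (hu : ContinuousOn u (Metric.ball 0 1)) {S : Set (ℝ × ℝ)}
    {a b : ℝ × ℝ → ℝ} (ha : Continuous a) (hb : Continuous b) (hS : ∀ q ∈ S, a q < 0) :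
    ContinuousOn (fun q => u (pt (a q) (b q))) S := by
  refine hu.comp (f := fun q => pt (a q) (b q)) ?_ fun q hq => pt_mem _ (hS q hq)
  refine Continuous.continuousOn ?_
  unfold pt
  fun_prop

theorem meas {u : ℂ → ℝ} (hu : ContinuousOn u (Metric.ball 0 1)) (n : ℕ) :
    Measurable (Function.uncurry (Qn u n)) := by
  classical
  set δ : ℝ := 1 / ((n : ℝ) + 1) with hδ
  have hδ0 : 0 < δ := by positivity
  set S : Set (ℝ × ℝ) := {q | q.2 < 0 ∧ δ < -q.2 / 2} with hS
  have hSo : IsOpen S := by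
    have e1 : IsOpen {q : ℝ × ℝ | q.2 < 0} := isOpen_lt continuous_snd continuous_const
    have e2 : IsOpen {q : ℝ × ℝ | δ < -q.2 / 2} :=
      isOpen_lt continuous_const (g := fun q : ℝ × ℝ => -q.2 / 2) (by fun_prop)
    exact e1.inter e2
  have hfun : Function.uncurry (Qn u n) =
      S.piecewise (fun q => ENNReal.ofReal (Efour u δ q.2 q.1)) (fun _ => 0) := by
    funext q
    obtain ⟨θ, x⟩ := q
    rw [Function.uncurry_apply_pair]
    unfold Qn
    by_cases h : x < 0 ∧ (1 : ℝ) / ((n : ℝ) + 1) < -x / 2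
    · have hm : ((θ, x) : ℝ × ℝ) ∈ S := h
      rw [Set.piecewise_eq_of_mem _ _ _ hm, if_pos h]
    · have hm : ((θ, x) : ℝ × ℝ) ∉ S := h
      rw [Set.piecewise_eq_of_notMem _ _ _ hm, if_neg h]
  rw [hfun]
  refine ContinuousOn.measurable_piecewise ?_ continuousOn_const hSo.measurableSet
  refine ENNReal.continuous_ofReal.comp_continuousOn ?_
  unfold Efour
  have h0 : ∀ q ∈ S, q.2 < 0 := fun q hq => hq.1
  have h1 := upt_cont hu (a := fun q => q.2) (b := fun q => q.1) (by fun_prop) (by fun_prop) h0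
  have h2 := upt_cont hu (a := fun q => q.2 + δ) (b := fun q => q.1) (by fun_prop) (by fun_prop)
    (S := S) (fun q hq => by
      have h5 := hq.2
      have h6 := hq.1
      change q.2 + δ < 0
      linarith)
  have h3 := upt_cont hu (a := fun q => q.2 - δ) (b := fun q => q.1) (by fun_prop) (by fun_prop)
    (S := S) (fun q hq => by
      have h6 := hq.1
      change q.2 - δ < 0
      linarith)
  have h4 := upt_cont hu (a := fun q => q.2) (b := fun q => q.1 + δ) (by fun_prop) (by fun_prop) h0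
  have h5 := upt_cont hu (a := fun q => q.2) (b := fun q => q.1 - δ) (by fun_prop) (by fun_prop) h0
  have hq4 : ContinuousOn (fun q : ℝ × ℝ => (δ / (-q.2)) ^ 4) S := by
    refine ContinuousOn.pow (ContinuousOn.div continuousOn_const (by fun_prop) ?_) 4
    intro q hq
    have := hq.1
    linarith
  have hr : ContinuousOn (fun q : ℝ × ℝ => (1 + (δ / (-q.2)) ^ 4) / (1 - (δ / (-q.2)) ^ 4)) S := by
    refine ContinuousOn.div (continuousOn_const.add hq4) (continuousOn_const.sub hq4) ?_
    intro q hq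
    have h1 := hq.1
    have h2 := hq.2
    have h3 : δ / (-q.2) < 1 := by
      rw [div_lt_one (by linarith)]
      linarith
    have h4 : 0 ≤ δ / (-q.2) := div_nonneg hδ0.le (by linarith)
    have h5 : (δ / (-q.2)) ^ 4 < 1 := pow_lt_one₀ h4 h3 (by norm_num)
    linarith
  exact (((((continuousOn_const.mul hr).mul (h1.sub continuousOn_const)).sub
    (h2.sub continuousOn_const)).sub (h3.sub continuousOn_const)).sub
    (h4.sub continuousOn_const) |>.sub (h5.sub continuousOn_const) |> continuousOn_const.mul).div_const _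

theorem ra6a (ra1 : St_RA1) (ra2 : St_RA2) : St_RA6A := by
  intro u j hP
  refine ⟨fun n => meas (ra2 u j hP) n, fun θ x hx => ?_⟩
  have ht : Tendsto (fun n : ℕ => (1 : ℝ) / ((n : ℝ) + 1)) atTop (𝓝 0) :=
    tendsto_one_div_add_atTop_nhds_zero_nat
  have ht2 : Tendsto (fun n : ℕ => (1 : ℝ) / ((n : ℝ) + 1)) atTop (𝓝[>] 0) := by
    refine tendsto_nhdsWithin_iff.2 ⟨ht, Eventually.of_forall fun n => ?_⟩
    exact mem_Ioi.2 (by positivity)
  refine (liminf_le_liminf_of_le ht2).trans ?_
  rw [← liminf_comp]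
  refine liminf_le_liminf ?_
  have hev : ∀ᶠ n : ℕ in atTop, (1 : ℝ) / ((n : ℝ) + 1) < -x / 2 :=
    ht.eventually_lt_const (by linarith)
  filter_upwards [hev] with n hn
  have hδ : (0 : ℝ) < 1 / ((n : ℝ) + 1) := by positivity
  have h1 := (ra1 u j hP).2.1 x θ (1 / ((n : ℝ) + 1)) hx hδ (by linarith)
  unfold Qn
  rw [if_pos ⟨hx, hn⟩]
  refine ENNReal.ofReal_le_ofReal ?_
  unfold Efour
  exact div_le_div_of_nonneg_right h1 (by positivity)

end Helper8.PM
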