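import Pool.Agent.Helper62.PM.St

/-!
# Project PM, module N: subadditivity of `h * (P - N)` for smooth sublinear `h`
-/

set_option autoImplicit false

open MeasureTheory Metric Set Filter Topology
open scoped RealInnerProductSpace ContDiff

namespace Pool.Agent.Helper8.PM

open Pool.Agent.Helper62.PM
open Pool.Agent.Helper62.Mink

private theorem integrable_sph {n : ℕ} (P : Measure (sphere (0 : E n) 1)) [IsFiniteMeasure P]
    {f : sphere (0 : E n) 1 → ℝ} (hf : Continuous f) : Integrable f P :=
  hf.integrable_of_hasCompactSupport (HasCompactSupport.of_compactSpace f)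

private theorem rp_cont {n : ℕ} (e v : E n) (s : ℝ) : Continuous (rp e v s) := by
  unfold rp
  fun_prop

private theorem lim_int {n : ℕ} (P : Measure (sphere (0 : E n) 1)) [IsFiniteMeasure P]
    (G : ℝ → E n → ℝ) (L : E n → ℝ)
    (hG : ∀ s, Integrable (fun w : sphere (0 : E n) 1 => G s (w : E n)) P)
    (hL : Integrable (fun w : sphere (0 : E n) 1 => L (w : E n)) P)
    (h : ∀ ε : ℝ, 0 < ε → ∃ δ : ℝ, 0 < δ ∧ ∀ s : ℝ, 0 < s → s < δ → ∀ x : E n, ‖x‖ = 1 →
      |G s x - L x| ≤ ε) :
    Tendsto (fun s : ℝ => ∫ w : sphere (0 : E n) 1, G s (w : E n) ∂P) (𝓝[>] 0)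
      (𝓝 (∫ w : sphere (0 : E n) 1, L (w : E n) ∂P)) := by
  rw [Metric.tendsto_nhds]
  intro ε hε
  have hc : 0 ≤ P.real univ := measureReal_nonneg
  obtain ⟨δ, hδ, hδ'⟩ := h (ε / (P.real univ + 1)) (by positivity)
  filter_upwards [Ioo_mem_nhdsGT hδ] with s hs
  rw [Real.dist_eq, ← integral_sub (hG s) hL]
  have h1 : ‖∫ w : sphere (0 : E n) 1, (G s (w : E n) - L (w : E n)) ∂P‖ ≤
      ε / (P.real univ + 1) * P.real univ := by
    refine norm_integral_le_of_norm_le_const (Eventually.of_forall fun w => ?_)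
    rw [Real.norm_eq_abs]
    exact hδ' s hs.1 hs.2 _ (by simp)
  rw [Real.norm_eq_abs] at h1
  refine lt_of_le_of_lt h1 ?_
  rw [div_mul_eq_mul_div, div_lt_iff₀ (by positivity)]
  nlinarith

theorem hN : StA → StC → StD → StE → StL → StN := by
  intro hA hC hD hE hL n e v P N F M m hn hev hP hN' hm hmon hF hgen h hh hsub
  have := hP
  have := hN'
  have := hm
  obtain ⟨d1, d2, d3, d4, d5⟩ := hD n
  obtain ⟨a1, a2, a3, a4⟩ := hA n e v hev
  have hhc : Continuous h := (d5 h hh).1
  refine hE n (F h) (by omega) (hF.cont h hhc) (hF.hom h) ?_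
  intro a b hab
  obtain ⟨θ, hθ, hθe, hθv⟩ := hL n e v a b hn hev hab
  obtain ⟨φ, hφ⟩ : ∃ φ : E n → ℝ, φ = fun z => h (θ z) := ⟨_, rfl⟩
  have hφS : S1 φ := by
    rw [hφ]
    exact (d3 θ h hh).1
  have hφc : Continuous φ := (d5 φ hφS).1
  obtain ⟨c1, _, c3⟩ := hC n e v φ hev hφS
  refine ⟨∫ p, D2 φ p.2 p.1 ∂m, ?_, ?_⟩
  · refine integral_nonneg_of_ae ?_
    have hae : ∀ᵐ p ∂m, ON p := by
      rw [ae_iff]
      exact hmon
    filter_upwards [hae] with p hp
    have e1 := (d3 θ h hh).2 p hp
    rw [← hφ] at e1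
    rw [e1]
    refine D2_nonneg hsub hh.smooth _ ?_
    intro h0
    have h1 : ‖θ p.1‖ = 0 := by rw [h0, norm_zero]
    rw [θ.norm_map, hp.1] at h1
    exact one_ne_zero h1
  · have hpole : ∀ s : ℝ, F h (Real.cos s • a + Real.sin s • b) =
        ∫ w : sphere (0 : E n) 1, φ (rp e v s (w : E n)) ∂P -
          ∫ w : sphere (0 : E n) 1, φ (rp e v s (w : E n)) ∂N := by
      intro s
      obtain ⟨η, hη, hη'⟩ := a1 s
      have hrot : IsRot (η.trans θ) := by
        unfold IsRot at hθ hη ⊢
        have e1 : ((η.trans θ).toLinearEquiv.toLinearMap : E n →ₗ[ℝ] E n) =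
            (θ.toLinearEquiv.toLinearMap : E n →ₗ[ℝ] E n) ∘ₗ
              (η.toLinearEquiv.toLinearMap : E n →ₗ[ℝ] E n) := rfl
        rw [e1, LinearMap.det_comp, hθ, hη, mul_one]
      have e2 : Real.cos s • a + Real.sin s • b = (η.trans θ) e := by
        show _ = θ (η e)
        rw [hη', a4, map_add, map_smul, map_smul, hθe, hθv]
      rw [e2, hF.pole h hhc _ hrot]
      have e3 : ∀ w : E n, h ((η.trans θ) w) = φ (rp e v s w) := by
        intro w
        rw [hφ]
        show h (θ (η w)) = h (θ (rp e v s w))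
        rw [hη']
      simp only [e3]
    have hpole' : ∀ s : ℝ, F h (Real.cos s • a - Real.sin s • b) =
        ∫ w : sphere (0 : E n) 1, φ (rp e v (-s) (w : E n)) ∂P -
          ∫ w : sphere (0 : E n) 1, φ (rp e v (-s) (w : E n)) ∂N := by
      intro s
      have := hpole (-s)
      rw [Real.cos_neg, Real.sin_neg, neg_smul, ← sub_eq_add_neg] at this
      exact this
    have hpole0 : F h a = ∫ w : sphere (0 : E n) 1, φ (w : E n) ∂P -
          ∫ w : sphere (0 : E n) 1, φ (w : E n) ∂N := by
      have := hpole 0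
      rw [Real.cos_zero, Real.sin_zero, one_smul, zero_smul, add_zero] at this
      simpa only [a3] using this
    have hquo : ∀ (Q : Measure (sphere (0 : E n) 1)) [IsFiniteMeasure Q] (s : ℝ),
        ∫ w : sphere (0 : E n) 1, quo e v φ s (w : E n) ∂Q =
          (∫ w : sphere (0 : E n) 1, φ (rp e v s (w : E n)) ∂Q +
            ∫ w : sphere (0 : E n) 1, φ (rp e v (-s) (w : E n)) ∂Q -
            2 * Real.cos s * ∫ w : sphere (0 : E n) 1, φ (w : E n) ∂Q) / s ^ 2 := by
      intro Q hQ s
      have i1 : Integrable (fun w : sphere (0 : E n) 1 => φ (rp e v s (w : E n))) Q :=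
        integrable_sph Q (hφc.comp ((rp_cont e v s).comp continuous_subtype_val))
      have i2 : Integrable (fun w : sphere (0 : E n) 1 => φ (rp e v (-s) (w : E n))) Q :=
        integrable_sph Q (hφc.comp ((rp_cont e v (-s)).comp continuous_subtype_val))
      have i3 : Integrable (fun w : sphere (0 : E n) 1 => 2 * Real.cos s * φ (w : E n)) Q :=
        (integrable_sph Q (hφc.comp continuous_subtype_val)).const_mul _
      unfold quo
      have i4 : Integrable (fun w : sphere (0 : E n) 1 => φ (rp e v s (w : E n)) +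
          φ (rp e v (-s) (w : E n))) Q := i1.add i2
      rw [integral_div, integral_sub i4 i3, integral_add i1 i2, integral_const_mul]
    have hquoint : ∀ (Q : Measure (sphere (0 : E n) 1)) [IsFiniteMeasure Q] (s : ℝ),
        Integrable (fun w : sphere (0 : E n) 1 => quo e v φ s (w : E n)) Q := by
      intro Q hQ s
      refine integrable_sph Q ?_
      unfold quo
      have k1 := hφc.comp ((rp_cont e v s).comp
        (continuous_subtype_val (p := fun x : E n => x ∈ sphere (0 : E n) 1)))
      have k2 := hφc.comp ((rp_cont e v (-s)).comp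
        (continuous_subtype_val (p := fun x : E n => x ∈ sphere (0 : E n) 1)))
      have k3 := hφc.comp (continuous_subtype_val (p := fun x : E n => x ∈ sphere (0 : E n) 1))
      exact ((k1.add k2).sub (k3.const_mul _)).div_const _
    have hLopint : ∀ (Q : Measure (sphere (0 : E n) 1)) [IsFiniteMeasure Q],
        Integrable (fun w : sphere (0 : E n) 1 => Lop e v φ (w : E n)) Q := by
      intro Q hQ
      refine integrable_sph Q ?_
      exact continuousOn_iff_continuous_domRestrict.1 c3
    have t1 := lim_int P (fun s x => quo e v φ s x) (Lop e v φ) (hquoint P) (hLopint P) c1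
    have t2 := lim_int N (fun s x => quo e v φ s x) (Lop e v φ) (hquoint N) (hLopint N) c1
    have t3 := t1.sub t2
    rw [hgen φ hφS] at t3
    refine t3.congr fun s => ?_
    rw [hquo P s, hquo N s, hpole s, hpole' s, hpole0]
    ring

end Pool.Agent.Helper8.PM
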